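import Pool.Agent.helper21.FF.Loc
import Pool.Agent.helper85.AR.Final
import Pool.Agent.helper22.RG.DSM

/-!
# FF (MP_2e0e07_nt): Frobenius fields

Let `P i`, `Q` be the Frobenius polynomials of compatible systems `V i`, `ρ` with members over
`ℚ_p` for sufficiently many `p`. If the splitting field of `Q v` is contained in the splitting field
of the product of the `P i v` for a set `S` of places whose Frobenius elements are dense in an open
subgroup, then for some `p` the coefficients of `ad⁰ ρ` on an open subgroup are in the algebra of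
the coefficients of `V`.
-/

set_option autoImplicit false

namespace Pool.Agent.RG

open Matrix Polynomial Topology Filter Pool.Agent.GO Pool.Agent.AR Pool.Agent.FLD Pool.Agent.FF

/-- The Frobenius elements of the places of `S` are dense in the subgroup `U`, also after removing
finitely many places. -/
def DenseIn {Γ Place : Type*} [Group Γ] [TopologicalSpace Γ] (frob : Place → Set Γ)
    (U : Subgroup Γ) (S : Set Place) : Prop :=
  ∀ (O : Set Γ) (T : Set Place), IsOpen O → (∃ g ∈ O, g ∈ U) → T.Finite →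
    ∃ v ∈ S, v ∉ T ∧ ∃ s ∈ frob v, s ∈ U ∧ s ∈ O

/-- For every finite extension `N` of `E` and every place `v` outside a finite set there are a prime
`p`, a homomorphism `τ : N → ℚ_p` and members `V`, `ρ` over `ℚ_p` of the compatible systems, which
are compatible with the polynomials at `v`. (`τ` is given by a place of `N` of degree one.) -/
def HasMembers {Γ Place : Type*} {E : Type} [Group Γ] [TopologicalSpace Γ] [Field E]
    (frob : Place → Set Γ) {r : ℕ} (n : Fin r → ℕ) (P : Fin r → Place → E[X])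
    (Q : Place → E[X]) : Prop :=
  ∃ T₀ : Set Place, T₀.Finite ∧ ∀ (N : Type) [Field N] [Algebra E N] [FiniteDimensional E N],
    ∀ v ∉ T₀, ∃ (p : ℕ) (_ : Fact p.Prime) (τ : N →+* ℚ_[p])
      (V : (i : Fin r) → Γ →* Matrix (Fin (n i)) (Fin (n i)) ℚ_[p])
      (ρ : Γ →* Matrix (Fin 2) (Fin 2) ℚ_[p]),
      IsRealisation frob P Q ((algebraMap ℚ_[p] (PadicAlgCl p)).comp (τ.comp (algebraMap E N)))
        (fun i => bc (algebraMap ℚ_[p] (PadicAlgCl p)) (V i))
        (bc (algebraMap ℚ_[p] (PadicAlgCl p)) ρ) ∧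
      ∀ s ∈ frob v, (∀ i, (V i s).charpoly = (P i v).map (τ.comp (algebraMap E N))) ∧
        (ρ s).charpoly = (Q v).map (τ.comp (algebraMap E N))

/-- The splitting field of `Q v` is contained in the splitting field of the product of the `P i v`,
for `v` in `S`. -/
def FrobeniusFields {Place E : Type*} [Field E] {r : ℕ} (P : Fin r → Place → E[X])
    (Q : Place → E[X]) (S : Set Place) : Prop :=
  ∀ v ∈ S, ((Q v).map (algebraMap E (∏ i, P i v).SplittingField)).Splits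

theorem bc_dirSum {Γ F Ω : Type*} [Group Γ] [Field F] [Field Ω] (j : F →+* Ω) {r : ℕ}
    {n : Fin r → ℕ} (V : (i : Fin r) → Γ →* Matrix (Fin (n i)) (Fin (n i)) F) :
    bc j (dirSum V) = dirSum fun i => bc j (V i) := by
  ext g ⟨i, a⟩ ⟨k, b⟩
  by_cases h : i = k
  · subst h
    rw [dirSum_apply]
    show j (dirSum V g ⟨i, a⟩ ⟨i, b⟩) = j (V i g a b)
    rw [dirSum_apply]
  · have h1 : dirSum (fun i => bc j (V i)) g ⟨i, a⟩ ⟨k, b⟩ = 0 :=
      Matrix.blockDiagonal'_apply_ne (fun i => bc j (V i) g) a b h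
    rw [h1]
    show j (dirSum V g ⟨i, a⟩ ⟨k, b⟩) = 0
    have h2 : dirSum V g ⟨i, a⟩ ⟨k, b⟩ = 0 :=
      Matrix.blockDiagonal'_apply_ne (fun i => V i g) a b h
    rw [h2, map_zero]

theorem bc_apply {Γ F Ω m : Type*} [Group Γ] [Field F] [Field Ω] [Fintype m] [DecidableEq m]
    (j : F →+* Ω) (V : Γ →* Matrix m m F) (g : Γ) : bc j V g = (V g).map j := rfl

theorem continuous_of_bc {Γ m : Type*} [Group Γ] [TopologicalSpace Γ] [Fintype m]
    [DecidableEq m] (p : ℕ) [Fact p.Prime] (V : Γ →* Matrix m m ℚ_[p])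
    (h : Continuous (bc (algebraMap ℚ_[p] (PadicAlgCl p)) V)) : Continuous V := by
  apply continuous_matrix
  intro i j
  have hi : Topology.IsInducing (algebraMap ℚ_[p] (PadicAlgCl p)) := by
    have : Isometry (algebraMap ℚ_[p] (PadicAlgCl p)) :=
      AddMonoidHomClass.isometry_of_norm _ (PadicAlgCl.norm_extends p)
    exact this.isUniformInducing.isInducing
  rw [hi.continuous_iff]
  exact h.matrix_elem i j

theorem charpoly_of_bc {Γ m E : Type*} [Group Γ] [Fintype m]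
    [DecidableEq m] [Field E] (p : ℕ) [Fact p.Prime] (V : Γ →* Matrix m m ℚ_[p]) (j : E →+* ℚ_[p])
    (P : E[X]) (s : Γ) (h : (bc (algebraMap ℚ_[p] (PadicAlgCl p)) V s).charpoly =
      P.map ((algebraMap ℚ_[p] (PadicAlgCl p)).comp j)) : (V s).charpoly = P.map j := by
  rw [bc_apply, Matrix.charpoly_map, ← Polynomial.map_map] at h
  exact Polynomial.map_injective _ (algebraMap ℚ_[p] (PadicAlgCl p)).injective h

theorem charpoly_dirSum' {Γ F : Type*} [Group Γ] [Field F] {r : ℕ}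
    {n : Fin r → ℕ} (V : (i : Fin r) → Γ →* Matrix (Fin (n i)) (Fin (n i)) F) (g : Γ) :
    (dirSum V g).charpoly = ∏ i, (V i g).charpoly :=
  Pool.Agent.RG.DSM.charpoly_bd fun i => V i g

/-- Frobenius fields: the coefficients of `ad⁰ ρ` are in the algebra of `V` on an open subgroup, for
some member of the compatible systems. -/
theorem FF {Γ : Type} {Place : Type*} {E : Type} [Group Γ] [TopologicalSpace Γ]
    [IsTopologicalGroup Γ] [CompactSpace Γ] [Field E] (frob : Place → Set Γ) {r : ℕ}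
    {n : Fin r → ℕ} (P : Fin r → Place → E[X]) (Q : Place → E[X]) (S : Set Place)
    (U₀ : Subgroup Γ) (hU₀ : IsOpen (U₀ : Set Γ)) (hS : DenseIn frob U₀ S)
    (hm : HasMembers frob n P Q) (hFF : FrobeniusFields P Q S) :
    ∃ (p : ℕ) (_ : Fact p.Prime) (τ : E →+* ℚ_[p])
      (V : (i : Fin r) → Γ →* Matrix (Fin (n i)) (Fin (n i)) ℚ_[p])
      (ρ : Γ →* Matrix (Fin 2) (Fin 2) ℚ_[p]),
      (∀ i, Continuous (V i)) ∧ Continuous ρ ∧
      IsRealisation frob P Q ((algebraMap ℚ_[p] (PadicAlgCl p)).comp τ)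
        (fun i => bc (algebraMap ℚ_[p] (PadicAlgCl p)) (V i))
        (bc (algebraMap ℚ_[p] (PadicAlgCl p)) ρ) ∧
      ∃ U : Subgroup Γ, IsOpen (U : Set Γ) ∧
        ∀ i j, (fun u : U => ad0 ((bc (algebraMap ℚ_[p] (PadicAlgCl p)) ρ).comp U.subtype) u i j) ∈
          alg ((dirSum fun i => bc (algebraMap ℚ_[p] (PadicAlgCl p)) (V i)).comp U.subtype) := by
  obtain ⟨Tb, hTb, hm⟩ := hm
  -- the exceptional sets
  have hexc : ∀ (p : ℕ) [Fact p.Prime] (τ : E →+* ℚ_[p])
      (V : (i : Fin r) → Γ →* Matrix (Fin (n i)) (Fin (n i)) ℚ_[p])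
      (ρ : Γ →* Matrix (Fin 2) (Fin 2) ℚ_[p]),
      IsRealisation frob P Q ((algebraMap ℚ_[p] (PadicAlgCl p)).comp τ)
        (fun i => bc (algebraMap ℚ_[p] (PadicAlgCl p)) (V i))
        (bc (algebraMap ℚ_[p] (PadicAlgCl p)) ρ) →
      ∃ T : Set Place, T.Finite ∧ ∀ v ∉ T, ∀ s ∈ frob v,
        (dirSum V s).charpoly = (∏ i, P i v).map τ ∧ (ρ s).charpoly = (Q v).map τ := by
    intro p _ τ V ρ hR
    choose TV hTV hTV' using hR.compV
    obtain ⟨Tρ, hTρ, hTρ'⟩ := hR.comp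
    refine ⟨(⋃ i, TV i) ∪ Tρ, (Set.finite_iUnion hTV).union hTρ, fun v hv s hs => ?_⟩
    rw [Set.mem_union, not_or, Set.mem_iUnion, not_exists] at hv
    refine ⟨?_, charpoly_of_bc p ρ τ (Q v) s (hTρ' v hv.2 s hs)⟩
    rw [charpoly_dirSum', Polynomial.map_prod]
    exact Finset.prod_congr rfl fun i _ =>
      charpoly_of_bc p (V i) τ (P i v) s (hTV' i v (hv.1 i) s hs)
  -- a first member
  obtain ⟨vb, hvbS, hvb, -⟩ := hS Set.univ Tb isOpen_univ ⟨1, Set.mem_univ _, U₀.one_mem⟩ hTb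
  obtain ⟨p₁, hp₁, τ₁, V₁, ρ₁, hR₁, -⟩ := hm E vb hvb
  have e₁ : τ₁.comp (algebraMap E E) = τ₁ := RingHom.comp_id _
  rw [e₁] at hR₁
  obtain ⟨T₁, hT₁, hT₁'⟩ := hexc p₁ τ₁ V₁ ρ₁ hR₁
  have hV₁c : Continuous (dirSum V₁) :=
    dirSum_continuous V₁ fun i => continuous_of_bc p₁ (V₁ i) (hR₁.contV i)
  obtain ⟨U₁, hU₁, hU₁'⟩ := small_subgroup p₁ Γ _ (dirSum V₁) hV₁c
  set H : Subgroup Γ := U₁ ⊓ U₀ with hH
  have hHo : IsOpen (H : Set Γ) := hU₁.inter hU₀
  have hneat : ∀ v ∉ T₁, (∃ s ∈ frob v, s ∈ H) → Neat (∏ i, P i v) := by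
    rintro v hv ⟨s, hs, hsH⟩
    refine neat_of_map (∏ i, P i v) ((algebraMap ℚ_[p₁] (PadicAlgCl p₁)).comp τ₁) ?_
    intro k hk x y hx hy hxy
    rw [← Polynomial.map_map, ← (hT₁' v hv s hs).1] at hx hy
    exact NEAT p₁ _ (dirSum V₁ s) (hU₁' s hsH.1) x y hx hy k hk hxy
  -- a place with the maximal number of roots
  set S' : Set Place := {v | v ∈ S ∧ v ∉ Tb ∧ v ∉ T₁ ∧ ∃ s ∈ frob v, s ∈ H} with hS'
  have hne : S'.Nonempty := by
    obtain ⟨v, hv, hvT, s, hs, -, hs2⟩ := hS (H : Set Γ) (Tb ∪ T₁) hHo ⟨1, H.one_mem, U₀.one_mem⟩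
      (hTb.union hT₁)
    rw [Set.mem_union, not_or] at hvT
    exact ⟨v, hv, hvT.1, hvT.2, s, hs, hs2⟩
  have hbd : ∀ v ∈ S', nroots (∏ i, P i v) ≤ Fintype.card (Σ i, Fin (n i)) := by
    rintro v ⟨-, -, hvT, s, hs, -⟩
    rw [← nroots_map _ τ₁, ← (hT₁' v hvT s hs).1]
    refine (nroots_le _).trans ?_
    rw [Matrix.charpoly_natDegree_eq_dim]
  obtain ⟨v₀, hv₀, hmax⟩ : ∃ v₀ ∈ S', ∀ v ∈ S', nroots (∏ i, P i v) ≤ nroots (∏ i, P i v₀) := by
    have h1 : ((fun v => nroots (∏ i, P i v)) '' S').Nonempty := hne.image _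
    have h2 : BddAbove ((fun v => nroots (∏ i, P i v)) '' S') := by
      refine ⟨Fintype.card (Σ i, Fin (n i)), ?_⟩
      rintro _ ⟨v, hv, rfl⟩
      exact hbd v hv
    obtain ⟨v₀, hv₀, h3⟩ := Nat.sSup_mem h1 h2
    refine ⟨v₀, hv₀, fun v hv => ?_⟩
    have h3' : nroots (∏ i, P i v₀) = sSup ((fun v => nroots (∏ i, P i v)) '' S') := h3
    rw [h3']
    exact le_csSup h2 ⟨v, hv, rfl⟩
  obtain ⟨hv₀S, hv₀b, hv₀T, s₀, hs₀, hs₀H⟩ := hv₀
  -- the second member
  obtain ⟨p, hp, τN, V, ρ, hR, hv₀c⟩ := hm (∏ i, P i v₀).SplittingField v₀ hv₀b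
  set τ : E →+* ℚ_[p] := τN.comp (algebraMap E (∏ i, P i v₀).SplittingField) with hτ
  obtain ⟨T, hT, hT'⟩ := hexc p τ V ρ hR
  have hVc : ∀ i, Continuous (V i) := fun i => continuous_of_bc p (V i) (hR.contV i)
  have hρc : Continuous ρ := continuous_of_bc p ρ hR.cont
  have hWc : Continuous (dirSum V) := dirSum_continuous V hVc
  have hSI : SI (bc (algebraMap ℚ_[p] (PadicAlgCl p)) ρ) := SI_of_open _ hR.cont hR.irr
  have hs₀c : (dirSum V s₀).charpoly = (∏ i, P i v₀).map τ := by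
    rw [charpoly_dirSum', Polynomial.map_prod]
    exact Finset.prod_congr rfl fun i _ => (hv₀c s₀ hs₀).1 i
  have hs₀s : (dirSum V s₀).charpoly.Splits := by
    rw [hs₀c, hτ, ← Polynomial.map_map]
    exact (SplittingField.splits (∏ i, P i v₀)).map τN
  have hP0 : (∏ i, P i v₀) ≠ 0 := by
    intro h0
    have h1 := (hT₁' v₀ hv₀T s₀ hs₀).1
    rw [h0, Polynomial.map_zero] at h1
    exact (Matrix.charpoly_monic _).ne_zero h1
  have hcomp : CompactSpace H := isCompact_iff_compactSpace.1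
    (H.isClosed_of_isOpen hHo).isCompact
  have hHf : H.FiniteIndex := by
    have := Subgroup.quotient_finite_of_isOpen H hHo
    exact Subgroup.finiteIndex_of_finite_quotient
  refine ⟨p, hp, τ, V, ρ, hVc, hρc, hR, ?_⟩
  rw [← bc_dirSum]
  apply adC_of_subgroup p (dirSum V) ρ H hHo
  rcases FF_local p H _ ((dirSum V).comp H.subtype) (ρ.comp H.subtype)
    (hWc.comp continuous_subtype_val) (hρc.comp continuous_subtype_val)
    (hSI.restrict _ H hHf) ⟨s₀, hs₀H⟩ hs₀s (by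
      intro k hk x y hx hy hxy
      have h1 : (((dirSum V).comp H.subtype) ⟨s₀, hs₀H⟩).charpoly.map
          (algebraMap ℚ_[p] (PadicAlgCl p)) =
          (∏ i, P i v₀).map ((algebraMap ℚ_[p] (PadicAlgCl p)).comp τ) := by
        rw [← Polynomial.map_map, ← hs₀c]
        rfl
      rw [h1] at hx hy
      exact (hneat v₀ hv₀T ⟨s₀, hs₀, hs₀H⟩).map hP0 _ k hk (IsAlgClosed.splits _) x y hx hy hxy)
    with h | ⟨O, hO, hOn, hO'⟩
  · exact h
  · exfalso
    obtain ⟨o, ho⟩ := hOn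
    obtain ⟨w, hwS, hwT, s, hs, -, s', hs'O, hs's⟩ := hS (Subtype.val '' O) (T ∪ (Tb ∪ T₁))
      (hHo.isOpenMap_subtype_val _ hO) ⟨o.1, ⟨o, ho, rfl⟩, o.2.2⟩ (hT.union (hTb.union hT₁))
    rw [Set.mem_union, not_or, Set.mem_union, not_or] at hwT
    have hsH : s ∈ H := by rw [← hs's]; exact s'.2
    have hw' := hmax w ⟨hwS, hwT.2.1, hwT.2.2, s, hs, hsH⟩
    obtain ⟨hodd, hspl⟩ := hO' s' hs'O
    have hWs : (((dirSum V).comp H.subtype) s').charpoly = (∏ i, P i w).map τ := by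
      rw [← (hT' w hwT.1 s hs).1, ← hs's]
      rfl
    have hρs : ((ρ.comp H.subtype) s').charpoly = (Q w).map τ := by
      rw [← (hT' w hwT.1 s hs).2, ← hs's]
      rfl
    have h1 : (((dirSum V).comp H.subtype) s').charpoly.Splits := by
      apply hspl
      have h2 : (((dirSum V).comp H.subtype) ⟨s₀, hs₀H⟩).charpoly = (∏ i, P i v₀).map τ := hs₀c
      rw [hWs, h2, nroots_map, nroots_map]
      exact hw'
    rw [hWs] at h1
    let _ : Algebra E ℚ_[p] := τ.toAlgebra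
    let φ : (∏ i, P i w).SplittingField →ₐ[E] ℚ_[p] := SplittingField.lift _ h1
    have h3 : ((Q w).map τ).Splits := by
      have h4 := (hFF w hwS).map (φ : (∏ i, P i w).SplittingField →+* ℚ_[p])
      rw [Polynomial.map_map] at h4
      have h5 : (φ : (∏ i, P i w).SplittingField →+* ℚ_[p]).comp
          (algebraMap E (∏ i, P i w).SplittingField) = τ := φ.comp_algebraMap
      rw [h5] at h4
      exact h4
    rw [← hρs] at h3
    obtain ⟨z, hz⟩ := disc_of_splits _ h3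
    exact hodd z (by rw [hz, norm_pow])

end Pool.Agent.RG
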