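import Pool.Agent.helper21.FF.FF
import Pool.Agent.helper67.RG.Main

/-!
# FF (MP_2e0e07_nt): Frobenius fields, the equivalence

For compatible systems with members over `ℚ_p`: the splitting field of `Q v` is contained in the
splitting field of the product of the `P i v` for a set of places whose Frobenius elements are dense
in some open subgroup, if and only if there is an algebraic relation, if and only if `ρ` arises from
the `V i` (for every realisation).
-/

set_option autoImplicit false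

namespace Pool.Agent.RG

open Matrix Polynomial Topology Pool.Agent.GO Pool.Agent.AR MeasureTheory

universe v x

/-- A subquotient on an open subgroup gives the inclusion of the Frobenius fields. -/
theorem FF_conv {Γ Place E F : Type*} [Group Γ] [TopologicalSpace Γ] [Field E] [Field F]
    [IsAlgClosed F] (frob : Place → Set Γ) {r : ℕ} {n : Fin r → ℕ} (P : Fin r → Place → E[X])
    (Q : Place → E[X]) (ι : E →+* F) (V : (i : Fin r) → Γ →* Matrix (Fin (n i)) (Fin (n i)) F)
    (ρ : Γ →* Matrix (Fin 2) (Fin 2) F) (hd : DenseIn frob ⊤ Set.univ)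
    (hV : ∀ i, Compatible frob ι (P i) (V i)) (hρ : Compatible frob ι Q ρ) (U : Subgroup Γ)
    (hU : IsOpen (U : Set Γ)) (i : Fin r)
    (h : IsSubquotient (fun u : U => ρ u) (fun u : U => V i u)) :
    ∃ S : Set Place, DenseIn frob U S ∧ FrobeniusFields P Q S := by
  choose TV hTV hTV' using hV
  obtain ⟨Tρ, hTρ, hTρ'⟩ := hρ
  set T : Set Place := (⋃ i, TV i) ∪ Tρ with hT
  have hTf : T.Finite := (Set.finite_iUnion hTV).union hTρ
  have hTi : ∀ v ∉ T, ∀ i, v ∉ TV i := fun v hv i h => hv (Or.inl (Set.mem_iUnion.2 ⟨i, h⟩))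
  refine ⟨{v | v ∉ T ∧ ∃ s ∈ frob v, s ∈ U}, ?_, ?_⟩
  · rintro O T' hO ⟨g, hgO, hgU⟩ hT'
    obtain ⟨v, -, hvT, s, hs, -, hsO, hsU⟩ := hd (O ∩ U) (T ∪ T') (hO.inter hU)
      ⟨g, ⟨hgO, hgU⟩, Subgroup.mem_top g⟩ (hTf.union hT')
    rw [Set.mem_union, not_or] at hvT
    exact ⟨v, ⟨hvT.1, s, hs, hsU⟩, hvT.2, s, hs, hsU, hsO⟩
  · rintro v ⟨hvT, s, hs, hsU⟩
    have hVs : ∀ i, (V i s).charpoly = (P i v).map ι := fun i => hTV' i v (hTi v hvT i) s hs
    have hρs : (ρ s).charpoly = (Q v).map ι := hTρ' v (fun h => hvT (Or.inr h)) s hs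
    have hP0 : (∏ i, P i v) ≠ 0 := by
      rw [Finset.prod_ne_zero_iff]
      intro i _ h0
      have h1 := hVs i
      rw [h0, Polynomial.map_zero] at h1
      exact (Matrix.charpoly_monic _).ne_zero h1
    let _ : Algebra E F := ι.toAlgebra
    let φ : (∏ i, P i v).SplittingField →ₐ[E] F := SplittingField.lift _ (IsAlgClosed.splits _)
    have hφ : (φ : (∏ i, P i v).SplittingField →+* F).comp
        (algebraMap E (∏ i, P i v).SplittingField) = ι := φ.comp_algebraMap
    refine Splits.of_splits_map (φ : (∏ i, P i v).SplittingField →+* F)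
      (IsAlgClosed.splits _) ?_
    intro y hy
    rw [Polynomial.map_map, hφ, ← hρs, mem_roots (Matrix.charpoly_monic _).ne_zero] at hy
    have h1 : (V i s).charpoly.IsRoot y :=
      root_of_subquot (fun u : U => V i u) (fun u : U => ρ u) h ⟨s, hsU⟩ y hy
    have h2 : ((∏ i, P i v).map ι).IsRoot y := by
      rw [Polynomial.map_prod, IsRoot, eval_prod]
      apply Finset.prod_eq_zero (Finset.mem_univ i)
      rw [← hVs i]
      exact h1
    have h3 : (∏ i, P i v).map ι = ((∏ i, P i v).map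
        (algebraMap E (∏ i, P i v).SplittingField)).map
          (φ : (∏ i, P i v).SplittingField →+* F) := by
      rw [Polynomial.map_map, hφ]
    rw [h3] at h2
    have h0 : (∏ i, P i v).map (algebraMap E (∏ i, P i v).SplittingField) ≠ 0 :=
      map_ne_zero hP0
    rw [← mem_roots (map_ne_zero h0), (SplittingField.splits _).roots_map, Multiset.mem_map] at h2
    obtain ⟨z, -, hz⟩ := h2
    exact ⟨z, hz⟩

section

variable {Γ : Type} {Place : Type x} {E : Type} [Group Γ] [TopologicalSpace Γ]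
  [IsTopologicalGroup Γ] [CompactSpace Γ] [MeasurableSpace Γ] [BorelSpace Γ]
  (μ : Measure Γ) [μ.IsHaarMeasure] (frob : Place → Set Γ) [Field E]
  {r : ℕ} {n : Fin r → ℕ} (P : Fin r → Place → E[X]) (Q : Place → E[X])

/-- Clause (3): inclusion of the Frobenius fields is equivalent to a relation. -/
theorem clause3 [NumberField E] (q : Place → ℕ) (s : ℕ) (w : Fin r → ℕ) (O : Set Place)
    (hO : IsGoodSet μ frob n P Q q s w O) (hm : HasMembers frob n P Q)
    (hd : DenseIn frob ⊤ Set.univ) :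
    (∃ (U : Subgroup Γ) (S : Set Place), IsOpen (U : Set Γ) ∧ DenseIn frob U S ∧
      FrobeniusFields P Q S) ↔
    ∃ (S : Set Place) (Φ : (MvPolynomial (Fin r × ℕ) E)[X]), NonNegl μ frob S ∧
      IsRelation P Q S Φ := by
  constructor
  · rintro ⟨U₀, S, hU₀, hS, hFF⟩
    obtain ⟨p, hp, τ, V, ρ, hVc, hρc, hR, U, hU, hcoef⟩ := FF frob P Q S U₀ hU₀ hS hm hFF
    obtain ⟨U', hU', i, hi⟩ := TCORE CORE_all μ frob P Q q s w O hO.pos hO.wt hO.dense hO.good
      hO.weil _ _ _ hR ⟨U, hU, hcoef⟩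
    exact Row3.CNV μ frob P Q _ _ _ O hO.dense hR.compV hR.comp ⟨U', hU', i, hi⟩
  · intro h
    obtain ⟨Tb, hTb, hm⟩ := hm
    obtain ⟨v, -, hv, -⟩ := hd Set.univ Tb isOpen_univ ⟨1, Set.mem_univ _, Subgroup.mem_top _⟩ hTb
    obtain ⟨p, hp, τ, V, ρ, hR, -⟩ := hm E v hv
    obtain ⟨U, hU, i, hi⟩ := Row3.DSC _ _ hR.irr
      ((clause1 μ frob P Q q s w O hO _ _ _ hR).1 h)
    obtain ⟨S, hS, hFF⟩ := FF_conv frob P Q _ _ _ hd hR.compV hR.comp U hU i hi
    exact ⟨U, S, hU, hS, hFF⟩

/-- Clause (3) for a realisation. -/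
theorem clause3' [NumberField E] (q : Place → ℕ) (s : ℕ) (w : Fin r → ℕ) (O : Set Place)
    (hO : IsGoodSet μ frob n P Q q s w O) (hm : HasMembers frob n P Q)
    (hd : DenseIn frob ⊤ Set.univ) {F : Type v} [Field F] [IsAlgClosed F] [CharZero F]
    [TopologicalSpace F] [IsTopologicalRing F] [T2Space F]
    (ι : E →+* F) (V : (i : Fin r) → Γ →* Matrix (Fin (n i)) (Fin (n i)) F)
    (ρ : Γ →* Matrix (Fin 2) (Fin 2) F) (hR : IsRealisation frob P Q ι V ρ) :
    (∃ (U : Subgroup Γ) (S : Set Place), IsOpen (U : Set Γ) ∧ DenseIn frob U S ∧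
      FrobeniusFields P Q S) ↔ Arises V ρ :=
  (clause3 μ frob P Q q s w O hO hm hd).trans (clause1 μ frob P Q q s w O hO ι V ρ hR)

end

end Pool.Agent.RG
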