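import Pool.Agent.helper55.FLD.All

/-!
# FF (MP_2e0e07_nt): elements with irreducible characteristic polynomial

If `ρ : Γ → GL_2(ℚ_p)` is strongly irreducible, every open subgroup contains an element for which
the norm of the discriminant of the characteristic polynomial is not the norm of a square.
-/

set_option autoImplicit false

namespace Pool.Agent.FF

open Matrix Topology Filter Pool.Agent.GO Pool.Agent.AR Pool.Agent.FLD

/-- the discriminant of the characteristic polynomial -/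
def disc {F : Type*} [CommRing F] (A : Matrix (Fin 2) (Fin 2) F) : F := A.trace ^ 2 - 4 * A.det

/-- the norm of `x` is not the norm of a square -/
def OddV (p : ℕ) [Fact p.Prime] (x : ℚ_[p]) : Prop := ∀ z : ℚ_[p], ‖z‖ ^ 2 ≠ ‖x‖

theorem oddV_mul_sq {p : ℕ} [Fact p.Prime] {x c : ℚ_[p]} (hc : c ≠ 0) (hx : OddV p x) :
    OddV p (c ^ 2 * x) := by
  intro z hz
  apply hx (z / c)
  have h0 : ‖c‖ ≠ 0 := norm_ne_zero_iff.2 hc
  rw [norm_div, div_pow, hz, norm_mul, norm_pow]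
  field_simp

theorem oddV_p (p : ℕ) [Fact p.Prime] : OddV p (p : ℚ_[p]) := by
  intro z hz
  have hp : (1 : ℝ) < p := by exact_mod_cast (Fact.out : p.Prime).one_lt
  rw [Padic.norm_p] at hz
  have hz0 : z ≠ 0 := by
    rintro rfl
    rw [norm_zero] at hz
    have : (0 : ℝ) < (p : ℝ)⁻¹ := by positivity
    simp at hz
    linarith
  rw [Padic.norm_eq_zpow_neg_valuation hz0, ← zpow_natCast, ← _root_.zpow_mul, ← _root_.zpow_neg_one] at hz
  have h2 := zpow_right_injective₀ (by linarith) (by linarith) hz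
  simp only [Nat.cast_ofNat] at h2
  omega

/-- the discriminant is determined up to small errors -/
theorem disc_calc {p : ℕ} [Fact p.Prime] (c l : ℚ_[p]) (hl : l ≠ 0)
    (e : Matrix (Fin 2) (Fin 2) ℚ_[p]) (he : ∀ i j, ‖e i j‖ ≤ 1) :
    OddV p (disc (c • (1 : Matrix (Fin 2) (Fin 2) ℚ_[p]) +
      l • (!![0, 1; (p : ℚ_[p]), 0] + ((p : ℚ_[p]) ^ 4) • e))) := by
  have hp : (1 : ℝ) < p := by exact_mod_cast (Fact.out : p.Prime).one_lt
  have hp0 : (p : ℚ_[p]) ≠ 0 := pne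
  set s : ℚ_[p] := (p : ℚ_[p]) ^ 3 * e 1 0 + (p : ℚ_[p]) ^ 4 * e 0 1 +
    (p : ℚ_[p]) ^ 7 * (e 0 1 * e 1 0) + (p : ℚ_[p]) ^ 7 / 4 * (e 0 0 - e 1 1) ^ 2 with hs
  have h1 : disc (c • (1 : Matrix (Fin 2) (Fin 2) ℚ_[p]) +
      l • (!![0, 1; (p : ℚ_[p]), 0] + ((p : ℚ_[p]) ^ 4) • e)) = (2 * l) ^ 2 * ((p : ℚ_[p]) * (1 + s)) := by
    unfold disc
    rw [Matrix.trace_fin_two, Matrix.det_fin_two, hs]
    simp only [Matrix.add_apply, Matrix.smul_apply, Matrix.one_apply, Matrix.of_apply,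
      Matrix.cons_val', Matrix.cons_val_zero, Matrix.cons_val_one, smul_eq_mul,
      Matrix.cons_val_fin_one]
    simp
    ring
  rw [h1]
  refine oddV_mul_sq (mul_ne_zero two_ne_zero hl) ?_
  have hpn : ‖(p : ℚ_[p])‖ = (p : ℝ)⁻¹ := Padic.norm_p
  have hpl : ‖(p : ℚ_[p])‖ < 1 := by
    rw [hpn]
    exact inv_lt_one_of_one_lt₀ hp
  have hpk : ∀ k : ℕ, 1 ≤ k → ‖(p : ℚ_[p]) ^ k‖ < 1 := by
    intro k hk
    rw [norm_pow]
    exact pow_lt_one₀ (norm_nonneg _) hpl (by omega)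
  have h4 : ‖(p : ℚ_[p]) ^ 7 / 4‖ < 1 := by
    have h5 : ‖(p : ℚ_[p])‖ ≤ ‖(2 : ℚ_[p])‖ := by
      by_cases h2 : p = 2
      · subst h2
        rfl
      · have : ‖((2 : ℤ) : ℚ_[p])‖ = 1 := by
          apply le_antisymm (Padic.norm_int_le_one 2)
          by_contra hlt
          push Not at hlt
          have h3 : (p : ℤ) ∣ 2 := Padic.norm_intCast_lt_one_iff.1 hlt
          have h6 : p ∣ 2 := by exact_mod_cast h3
          have := (Nat.prime_dvd_prime_iff_eq (Fact.out : p.Prime) Nat.prime_two).1 h6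
          exact h2 this
        have h6 : ‖(2 : ℚ_[p])‖ = 1 := by exact_mod_cast this
        rw [h6]
        exact hpl.le
    have h2p : 0 < ‖(2 : ℚ_[p])‖ := norm_pos_iff.2 two_ne_zero
    have e1 : (4 : ℚ_[p]) = 2 ^ 2 := by norm_num
    rw [norm_div, e1, norm_pow, norm_pow, div_lt_one (by positivity)]
    calc ‖(p : ℚ_[p])‖ ^ 7 < ‖(p : ℚ_[p])‖ ^ 2 :=
          pow_lt_pow_right_of_lt_one₀ (norm_pos_iff.2 hp0) hpl (by norm_num)
      _ ≤ ‖(2 : ℚ_[p])‖ ^ 2 := pow_le_pow_left₀ (norm_nonneg _) h5 2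
  have hul : ∀ x y : ℚ_[p], ‖x‖ < 1 → ‖y‖ < 1 → ‖x + y‖ < 1 := fun x y hx hy =>
    lt_of_le_of_lt (Padic.nonarchimedean x y) (max_lt hx hy)
  have hm : ∀ x y : ℚ_[p], ‖x‖ < 1 → ‖y‖ ≤ 1 → ‖x * y‖ < 1 := fun x y hx hy => by
    rw [norm_mul]
    exact mul_lt_one_of_nonneg_of_lt_one_left (norm_nonneg _) hx hy
  have hs1 : ‖s‖ < 1 := by
    refine hul _ _ (hul _ _ (hul _ _ (hm _ _ (hpk 3 (by norm_num)) (he 1 0))
      (hm _ _ (hpk 4 (by norm_num)) (he 0 1))) (hm _ _ (hpk 7 (by norm_num)) ?_))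
      (hm _ _ h4 ?_)
    · rw [norm_mul]
      exact mul_le_one₀ (he 0 1) (norm_nonneg _) (he 1 0)
    · rw [norm_pow]
      refine pow_le_one₀ (norm_nonneg _) ?_
      rw [sub_eq_add_neg]
      refine (Padic.nonarchimedean _ _).trans (max_le (he 0 0) ?_)
      rw [norm_neg]
      exact he 1 1
  have h1s : ‖1 + s‖ = 1 := by
    have h5 : ‖(1 : ℚ_[p])‖ ≠ ‖s‖ := by
      rw [norm_one]
      exact hs1.ne'
    rw [Padic.add_eq_max_of_ne h5, norm_one]
    exact max_eq_left hs1.le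
  intro z hz
  apply oddV_p p z
  rw [hz, norm_mul, h1s, mul_one]

/-- Row ELL. Every open subgroup contains an element whose discriminant has odd valuation. -/
theorem ELL (p : ℕ) [Fact p.Prime] (Γ : Type) [Group Γ] [TopologicalSpace Γ]
    [IsTopologicalGroup Γ] [CompactSpace Γ] (Ω : Type) [Field Ω] [IsAlgClosed Ω]
    [Algebra ℚ_[p] Ω] (ρ : Γ →* Matrix (Fin 2) (Fin 2) ℚ_[p]) (hρ : Continuous ρ)
    (hSI : SI (((algebraMap ℚ_[p] Ω).mapMatrix : Matrix (Fin 2) (Fin 2) ℚ_[p] →+*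
      Matrix (Fin 2) (Fin 2) Ω).toMonoidHom.comp ρ)) (U : Subgroup Γ)
    (hU : IsOpen (U : Set Γ)) : ∃ g ∈ U, OddV p (disc (ρ g)) := by
  classical
  have hTL : TL_stmt := TL
  have hLG : LG_stmt := LG TA
  have hAD : AD_stmt := AD TA
  have hTP : TP_stmt := TP
  obtain ⟨R, hR, hL, hRs⟩ := LA p (Fin 0) ℚ_[p]
  let V₀ : Γ →* Matrix (Fin 0) (Fin 0) ℚ_[p] := 1
  have hΦ : Continuous (V₀.prod ρ) := continuous_const.prodMk hρ
  obtain ⟨U₁, hU₁, hU₁2⟩ := OG p _ R hL Γ (V₀.prod ρ) hΦ 2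
  -- the small open subgroup
  let G := (U ⊓ U₁ : Subgroup Γ)
  have hG : IsOpen (G : Set Γ) := hU.inter hU₁
  have : CompactSpace G := isCompact_iff_compactSpace.mp (G.isClosed_of_isOpen hG).isCompact
  have hGf : G.FiniteIndex := by
    have := Subgroup.quotient_finite_of_isOpen G hG
    exact Subgroup.finiteIndex_of_finite_quotient
  have irr' := IR ℚ_[p] Ω Γ ρ hSI G hGf
  let V : G →* Matrix (Fin 0) (Fin 0) ℚ_[p] := V₀.comp G.subtype
  let r : G →* Matrix (Fin 2) (Fin 2) ℚ_[p] := ρ.comp G.subtype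
  have hsm : ∀ g, Dv p R 2 ((V.prod r) g - 1) := fun g => hU₁2 g.1 g.2.2
  have irr : ∀ N : Submodule ℚ_[p] (Matrix (Fin 2) (Fin 2) ℚ_[p]), N ≠ ⊥ →
      (∀ Y ∈ N, Y.trace = 0) → (∀ g, ∀ Y ∈ N, r g * Y * r g⁻¹ ∈ N) →
      ∀ Y : Matrix (Fin 2) (Fin 2) ℚ_[p], Y.trace = 0 → Y ∈ N := fun N hN1 hN2 hN3 =>
    irr' N hN1 hN2 (fun g hg Y hY => hN3 ⟨g, hg⟩ Y hY)
  obtain ⟨t1, t2, t3, t4, t5, t6, t7, t8⟩ := hTL ℚ_[p]
  obtain ⟨p1, p2, p3, p4, p5⟩ := hTP p _ R hL hRs G (V.prod r) hsm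
  set T := TT p R (V.prod r) with hT
  have hzero : (0 : Matrix (Fin 0) (Fin 0) ℚ_[p] × Matrix (Fin 2) (Fin 2) ℚ_[p]) ∈ T :=
    ⟨R.zero_mem, fun i _ => ⟨1, by
      rw [map_one, sub_self, smul_zero, sub_zero]
      exact Dv.zero _⟩⟩
  have hconj : ∀ g, ∀ x ∈ T, (V g * x.1 * V g⁻¹, r g * x.2 * r g⁻¹) ∈ T :=
    fun g x hx => p4 g x hx
  obtain ⟨g₀, hg₀⟩ : ∃ g : G, ∀ c : ℚ_[p], r g ≠ c • 1 := by
    by_contra hcon
    push Not at hcon
    have hN := irr (Submodule.span ℚ_[p] {!![0, 1; 0, 0]}) (by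
      intro h0
      rw [Submodule.span_singleton_eq_bot] at h0
      have := congrFun (congrFun h0 0) 1
      simp at this) (by
      intro Y hY
      obtain ⟨c, rfl⟩ := Submodule.mem_span_singleton.mp hY
      simp [Matrix.trace_fin_two]) (by
      intro g Y hY
      obtain ⟨c, hc⟩ := hcon g
      have e : r g * Y * r g⁻¹ = Y := by
        have h1 : r g * r g⁻¹ = 1 := by rw [← map_mul, mul_inv_cancel, map_one]
        rw [hc] at h1 ⊢
        rw [smul_mul_assoc, one_mul] at h1 ⊢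
        rw [smul_mul_assoc, ← mul_smul_comm, h1, mul_one]
      rw [e]
      exact hY) !![0, 0; 1, 0] (by simp [Matrix.trace_fin_two])
    obtain ⟨c, hc⟩ := Submodule.mem_span_singleton.mp hN
    have := congrFun (congrFun hc 1) 0
    simp at this
  obtain ⟨x₀, hx₀, hx₀'⟩ := NZ hLG hAD hTL hTP p (Fin 0) ℚ_[p] G V r R hR hL hRs hsm g₀ hg₀
  have hspan : ∀ Y : Matrix (Fin 2) (Fin 2) ℚ_[p], Y.trace = 0 →
      Y ∈ Submodule.span ℚ_[p] {y | ∃ x ∈ T, tl x.2 = y} := by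
    apply irr
    · intro h0
      apply hx₀'
      have : tl x₀.2 ∈ Submodule.span ℚ_[p] {y | ∃ x ∈ T, tl x.2 = y} :=
        Submodule.subset_span ⟨x₀, hx₀, rfl⟩
      rw [h0] at this
      exact this
    · intro Y hY
      induction hY using Submodule.span_induction with
      | mem y hy =>
        obtain ⟨x, _, rfl⟩ := hy
        exact t1 _
      | zero => simp
      | add y z _ _ hy hz => rw [Matrix.trace_add, hy, hz, add_zero]
      | smul c y _ hy => rw [Matrix.trace_smul, hy, smul_zero]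
    · intro g Y hY
      induction hY using Submodule.span_induction with
      | mem y hy =>
        obtain ⟨x, hx, rfl⟩ := hy
        rw [← t5]
        exact Submodule.subset_span ⟨_, hconj g x hx, rfl⟩
      | zero => simp
      | add y z _ _ hy hz =>
        rw [mul_add, add_mul]
        exact Submodule.add_mem _ hy hz
      | smul c y _ hy =>
        rw [mul_smul_comm, smul_mul_assoc]
        exact Submodule.smul_mem _ _ hy
  obtain ⟨k, x, hx, hxk⟩ := SP p (Matrix (Fin 2) (Fin 2) ℚ_[p]) {y | ∃ x ∈ T, tl x.2 = y}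
    ⟨0, hzero, t2 _ (by simp)⟩
    (by
      rintro _ ⟨x, hx, rfl⟩ _ ⟨y, hy, rfl⟩
      exact ⟨x + y, p2 x hx y hy, t3 _ _⟩)
    (by
      rintro c hc _ ⟨x, hx, rfl⟩
      exact ⟨c • x, p3 c hc x hx, t4 c _⟩)
    !![0, 1; (p : ℚ_[p]), 0] (hspan _ (by simp [Matrix.trace_fin_two]))
  obtain ⟨g, e, he, hge⟩ := hx.2 (k + 4) (by omega)
  have he2 := ((hR e).1 he).2
  have h2 : r g - 1 - ((p : ℚ_[p]) ^ (k + 4)) • x.2 = ((p : ℚ_[p]) ^ (2 * (k + 4))) • e.2 :=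
    congrArg Prod.snd hge
  have h3 : x.2 = (x.2.trace / 2) • 1 + ((p : ℚ_[p]) ^ k) • !![0, 1; (p : ℚ_[p]), 0] := by
    rw [← hxk]
    unfold tl
    abel
  have h4 : ρ g.1 = (1 + (p : ℚ_[p]) ^ (k + 4) * (x.2.trace / 2)) •
      (1 : Matrix (Fin 2) (Fin 2) ℚ_[p]) + ((p : ℚ_[p]) ^ (2 * k + 4)) •
        (!![0, 1; (p : ℚ_[p]), 0] + ((p : ℚ_[p]) ^ 4) • e.2) := by
    have h5 : r g = 1 + ((p : ℚ_[p]) ^ (k + 4)) • x.2 + ((p : ℚ_[p]) ^ (2 * (k + 4))) • e.2 := by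
      rw [← h2]
      abel
    show r g = _
    rw [h5]
    conv_lhs => rw [h3]
    simp only [smul_add, smul_smul, add_smul, one_smul, ← pow_add]
    rw [show k + 4 + k = 2 * k + 4 by ring, show 2 * (k + 4) = 2 * k + 4 + 4 by ring]
    abel
  refine ⟨g.1, g.2.1, ?_⟩
  rw [h4]
  exact disc_calc _ _ (ppow_ne _) _ he2

end Pool.Agent.FF
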