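import Mathlib

/-!
# FF (MP_2e0e07_nt): eigenvalues of matrices near `1`

If `A ∈ M_n(ℚ_p)` is `1` modulo `p²`, different eigenvalues of `A` have different powers.
-/

set_option autoImplicit false

namespace Pool.Agent.FF

open Polynomial Topology

theorem neat_unit (p : ℕ) [Fact p.Prime] (u : PadicAlgCl p) (hu : ‖u - 1‖ ≤ ((p : ℝ) ^ 2)⁻¹)
    (k : ℕ) (hk : 0 < k) (h : u ^ k = 1) : u = 1 := by
  have hp : (1 : ℝ) < p := by exact_mod_cast (Fact.out : p.Prime).one_lt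
  have hp1 : ((p : ℝ) ^ 2)⁻¹ < 1 := inv_lt_one_of_one_lt₀ (one_lt_pow₀ hp (by norm_num))
  have hpow : ∀ w : PadicAlgCl p, ‖w - 1‖ ≤ ((p : ℝ) ^ 2)⁻¹ → ∀ i : ℕ,
      ‖w ^ i - 1‖ ≤ ((p : ℝ) ^ 2)⁻¹ := by
    intro w hw i
    have hw1 : ‖w‖ ≤ 1 := by
      have e : w = (w - 1) + 1 := by ring
      rw [e]
      refine (IsUltrametricDist.norm_add_le_max _ _).trans (max_le (hw.trans hp1.le) ?_)
      rw [norm_one]
    induction i with
    | zero => simp
    | succ i ih =>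
      have e : w ^ (i + 1) - 1 = w * (w ^ i - 1) + (w - 1) := by ring
      rw [e]
      refine (IsUltrametricDist.norm_add_le_max _ _).trans (max_le ?_ hw)
      rw [norm_mul]
      calc ‖w‖ * ‖w ^ i - 1‖ ≤ 1 * ((p : ℝ) ^ 2)⁻¹ :=
            mul_le_mul hw1 ih (norm_nonneg _) zero_le_one
        _ = _ := one_mul _
  by_contra hne
  have hfin : IsOfFinOrder u := isOfFinOrder_iff_pow_eq_one.2 ⟨k, hk, h⟩
  have hm : 0 < orderOf u := hfin.orderOf_pos
  have hm1 : orderOf u ≠ 1 := fun h1 => hne (orderOf_eq_one_iff.1 h1)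
  obtain ⟨q, hq, m', hm'⟩ := Nat.exists_prime_and_dvd hm1
  have hm'0 : m' ≠ 0 := by
    rintro rfl
    rw [Nat.mul_zero] at hm'
    omega
  have hlt : m' < orderOf u := by
    rw [hm']
    have := hq.two_le
    nlinarith [Nat.pos_of_ne_zero hm'0]
  have h1 : u ^ m' ≠ 1 := pow_ne_one_of_lt_orderOf hm'0 hlt
  have h2 : (u ^ m') ^ q = 1 := by
    rw [← pow_mul, mul_comm, ← hm', pow_orderOf_eq_one]
  have h3 : (∑ i ∈ Finset.range q, (u ^ m') ^ i) = 0 := by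
    have h4 := geom_sum_mul (u ^ m') q
    rw [h2, sub_self] at h4
    rcases mul_eq_zero.1 h4 with h5 | h5
    · exact h5
    · exact absurd (sub_eq_zero.1 h5) h1
  have h4 : (q : PadicAlgCl p) = -∑ i ∈ Finset.range q, ((u ^ m') ^ i - 1) := by
    rw [Finset.sum_sub_distrib, h3]
    simp
  have h5 : ‖(q : PadicAlgCl p)‖ ≤ ((p : ℝ) ^ 2)⁻¹ := by
    rw [h4, norm_neg]
    refine IsUltrametricDist.norm_sum_le_of_forall_le_of_nonneg (by positivity) ?_
    intro i _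
    exact hpow _ (hpow u hu m') i
  have h6 : ‖(q : PadicAlgCl p)‖ = ‖(q : ℚ_[p])‖ := by
    rw [← norm_algebraMap' (PadicAlgCl p) (q : ℚ_[p]), map_natCast]
  rw [h6] at h5
  have h7 : (p : ℝ)⁻¹ ≤ ‖(q : ℚ_[p])‖ := by
    by_cases hqp : q = p
    · rw [hqp, Padic.norm_p]
    · have h8 : ‖(q : ℚ_[p])‖ = 1 := by
        rw [Padic.norm_natCast_eq_one_iff]
        exact (Nat.coprime_primes (Fact.out : p.Prime) hq).2 (Ne.symm hqp)
      rw [h8]
      exact inv_le_one_of_one_le₀ hp.le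
  have h8 : ((p : ℝ) ^ 2)⁻¹ < (p : ℝ)⁻¹ := by
    apply inv_strictAnti₀ (by linarith)
    nlinarith
  linarith

theorem neat_near (p : ℕ) [Fact p.Prime] (n : Type) [Fintype n] [DecidableEq n]
    (A : Matrix n n ℚ_[p]) (hA : ∀ i j, ‖(A - 1) i j‖ ≤ ((p : ℝ) ^ 2)⁻¹) (γ : PadicAlgCl p)
    (h : (A.charpoly.map (algebraMap ℚ_[p] (PadicAlgCl p))).IsRoot γ) :
    ‖γ - 1‖ ≤ ((p : ℝ) ^ 2)⁻¹ := by
  set B : Matrix n n (PadicAlgCl p) := A.map (algebraMap ℚ_[p] (PadicAlgCl p)) with hB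
  rw [← Matrix.charpoly_map, IsRoot.def, Matrix.eval_charpoly] at h
  obtain ⟨x, hx0, hx⟩ := Matrix.exists_mulVec_eq_zero_iff.2 h
  have hx' : B.mulVec x = γ • x := by
    rw [Matrix.sub_mulVec, sub_eq_zero] at hx
    rw [hB]
    refine Eq.trans hx.symm ?_
    ext i
    simp [Matrix.scalar, Matrix.mulVec_diagonal]
  obtain ⟨i₀, hi₀⟩ : ∃ i, x i ≠ 0 := by
    by_contra hcon
    push Not at hcon
    exact hx0 (funext hcon)
  obtain ⟨i, _, hi⟩ := Finset.exists_max_image Finset.univ (fun i => ‖x i‖) ⟨i₀, Finset.mem_univ _⟩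
  have hpos : 0 < ‖x i‖ := lt_of_lt_of_le (norm_pos_iff.2 hi₀) (hi i₀ (Finset.mem_univ _))
  have h1 : (γ - 1) * x i = ∑ j, (algebraMap ℚ_[p] (PadicAlgCl p) ((A - 1) i j)) * x j := by
    have h2 := congrFun hx' i
    rw [Matrix.mulVec, dotProduct] at h2
    have h3 : ∀ j, algebraMap ℚ_[p] (PadicAlgCl p) ((A - 1) i j) * x j =
        B i j * x j - (1 : Matrix n n (PadicAlgCl p)) i j * x j := by
      intro j
      rw [Matrix.sub_apply, map_sub, sub_mul, hB, Matrix.map_apply, Matrix.one_apply,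
        Matrix.one_apply]
      split_ifs <;> simp
    rw [Finset.sum_congr rfl fun j _ => h3 j, Finset.sum_sub_distrib, h2]
    simp [Matrix.one_apply, sub_mul]
  have h2 : ‖(γ - 1) * x i‖ ≤ ((p : ℝ) ^ 2)⁻¹ * ‖x i‖ := by
    rw [h1]
    refine IsUltrametricDist.norm_sum_le_of_forall_le_of_nonneg (by positivity) ?_
    intro j _
    rw [norm_mul, norm_algebraMap']
    exact mul_le_mul (hA i j) (hi j (Finset.mem_univ _)) (norm_nonneg _) (by positivity)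
  rw [norm_mul] at h2
  exact le_of_mul_le_mul_right h2 hpos

/-- Row NEAT. -/
theorem NEAT (p : ℕ) [Fact p.Prime] (n : Type) [Fintype n] [DecidableEq n]
    (A : Matrix n n ℚ_[p]) (hA : ∀ i j, ‖(A - 1) i j‖ ≤ ((p : ℝ) ^ 2)⁻¹) (γ γ' : PadicAlgCl p)
    (h : (A.charpoly.map (algebraMap ℚ_[p] (PadicAlgCl p))).IsRoot γ)
    (h' : (A.charpoly.map (algebraMap ℚ_[p] (PadicAlgCl p))).IsRoot γ') (k : ℕ) (hk : 0 < k)
    (hkk : γ ^ k = γ' ^ k) : γ = γ' := by
  have hp : (1 : ℝ) < p := by exact_mod_cast (Fact.out : p.Prime).one_lt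
  have hp1 : ((p : ℝ) ^ 2)⁻¹ < 1 := inv_lt_one_of_one_lt₀ (one_lt_pow₀ hp (by norm_num))
  have h1 := neat_near p n A hA γ h
  have h2 := neat_near p n A hA γ' h'
  have h3 : ‖γ'‖ = 1 := by
    have h4 : ‖γ' - 1‖ ≠ ‖(1 : PadicAlgCl p)‖ := by
      rw [norm_one]
      exact (h2.trans_lt hp1).ne
    have h5 := IsUltrametricDist.norm_add_eq_max_of_norm_ne_norm h4
    rw [sub_add_cancel, norm_one] at h5
    rw [h5]
    exact max_eq_right (h2.trans hp1.le)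
  have h0 : γ' ≠ 0 := by
    rw [← norm_pos_iff, h3]
    exact one_pos
  have h4 : ‖γ / γ' - 1‖ ≤ ((p : ℝ) ^ 2)⁻¹ := by
    have e : γ / γ' - 1 = ((γ - 1) + -(γ' - 1)) / γ' := by
      field_simp
      ring
    rw [e, norm_div, h3, div_one]
    refine (IsUltrametricDist.norm_add_le_max _ _).trans (max_le h1 ?_)
    rwa [norm_neg]
  have h5 := neat_unit p (γ / γ') h4 k hk (by
    rw [div_pow, hkk, div_self (pow_ne_zero k h0)])
  rwa [div_eq_one_iff_eq h0] at h5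

end Pool.Agent.FF
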