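import Pool.Agent.helper21.FF.SPL

/-!
# FF (MP_2e0e07_nt): numbers of distinct roots and powers of matrices
-/

set_option autoImplicit false

namespace Pool.Agent.FF

open Polynomial Topology

section

variable {F K : Type*} [Field F] [Field K]

theorem nroots_aux (f : F[X]) (j : F →+* K) (hs : (f.map j).Splits) [DecidableEq K]
    [DecidableEq f.SplittingField] :
    (f.map j).roots.toFinset.card =
      (f.map (algebraMap F f.SplittingField)).roots.toFinset.card := by
  letI : Algebra F K := j.toAlgebra
  let φ : f.SplittingField →ₐ[F] K := SplittingField.lift f hs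
  have h1 : f.map j = (f.map (algebraMap F f.SplittingField)).map (φ : f.SplittingField →+* K) := by
    rw [Polynomial.map_map]
    congr 1
    exact (φ.comp_algebraMap).symm
  rw [h1, (SplittingField.splits f).roots_map, Multiset.toFinset_map,
    Finset.card_image_of_injective]
  exact (φ : f.SplittingField →+* K).injective

/-- the number of distinct roots in any field in which the polynomial splits -/
theorem nroots_eq (f : F[X]) (j : F →+* K) (hs : (f.map j).Splits) [DecidableEq K] :
    (f.map j).roots.toFinset.card = nroots f := by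
  classical
  unfold nroots
  rw [nroots_aux f j hs, nroots_aux f (algebraMap F (AlgebraicClosure F)) (IsAlgClosed.splits _)]

theorem nroots_map (f : F[X]) (j : F →+* K) : nroots (f.map j) = nroots f := by
  classical
  have h1 : ((f.map j).map (algebraMap K (AlgebraicClosure K))).Splits := IsAlgClosed.splits _
  rw [← nroots_eq (f.map j) (algebraMap K (AlgebraicClosure K)) h1]
  rw [Polynomial.map_map] at h1 ⊢
  exact nroots_eq f _ h1

theorem nroots_le (f : F[X]) : nroots f ≤ f.natDegree := by
  classical
  unfold nroots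
  refine (Multiset.toFinset_card_le _).trans ((card_roots' _).trans ?_)
  rw [natDegree_map]

/-- different roots of `f` have different powers -/
def Neat (f : F[X]) : Prop := ∀ k : ℕ, 0 < k → ∀ x y : f.SplittingField,
  (f.map (algebraMap F f.SplittingField)).IsRoot x →
  (f.map (algebraMap F f.SplittingField)).IsRoot y → x ^ k = y ^ k → x = y

theorem neat_of_map [IsAlgClosed K] (f : F[X]) (j : F →+* K)
    (h : ∀ k : ℕ, 0 < k → ∀ x y : K, (f.map j).IsRoot x → (f.map j).IsRoot y →
      x ^ k = y ^ k → x = y) : Neat f := by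
  letI : Algebra F K := j.toAlgebra
  have hs : (f.map (algebraMap F K)).Splits := IsAlgClosed.splits _
  let φ : f.SplittingField →ₐ[F] K := SplittingField.lift f hs
  have h1 : f.map j = (f.map (algebraMap F f.SplittingField)).map (φ : f.SplittingField →+* K) := by
    rw [Polynomial.map_map]
    congr 1
    exact (φ.comp_algebraMap).symm
  have h2 : ∀ x : f.SplittingField, (f.map (algebraMap F f.SplittingField)).IsRoot x →
      (f.map j).IsRoot (φ x) := by
    intro x hx
    rw [h1]
    exact hx.map
  intro k hk x y hx hy hxy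
  have h3 := h k hk (φ x) (φ y) (h2 x hx) (h2 y hy) (by rw [← map_pow, hxy, map_pow])
  exact φ.toRingHom.injective h3

theorem Neat.map {f : F[X]} (hf0 : f ≠ 0) (h : Neat f) (j : F →+* K) (k : ℕ) (hk : 0 < k)
    (hs : (f.map j).Splits) (x y : K) (hx : (f.map j).IsRoot x) (hy : (f.map j).IsRoot y)
    (hxy : x ^ k = y ^ k) : x = y := by
  letI : Algebra F K := j.toAlgebra
  let φ : f.SplittingField →ₐ[F] K := SplittingField.lift f hs
  have h1 : f.map j = (f.map (algebraMap F f.SplittingField)).map (φ : f.SplittingField →+* K) := by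
    rw [Polynomial.map_map]
    congr 1
    exact (φ.comp_algebraMap).symm
  have h0 : f.map (algebraMap F f.SplittingField) ≠ 0 := map_ne_zero hf0
  have h2 : ∀ x : K, (f.map j).IsRoot x →
      ∃ x', (f.map (algebraMap F f.SplittingField)).IsRoot x' ∧ φ x' = x := by
    intro x hx
    rw [h1, ← mem_roots (map_ne_zero h0), (SplittingField.splits f).roots_map,
      Multiset.mem_map] at hx
    obtain ⟨x', hx', rfl⟩ := hx
    exact ⟨x', (mem_roots h0).1 hx', rfl⟩
  obtain ⟨x', hx', rfl⟩ := h2 x hx
  obtain ⟨y', hy', rfl⟩ := h2 y hy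
  rw [← map_pow, ← map_pow] at hxy
  rw [h k hk x' y' hx' hy' (φ.toRingHom.injective hxy)]

end

section pow

variable {K : Type*} [Field K] {n : Type*} [Fintype n] [DecidableEq n]

theorem root_charpoly_pow [IsAlgClosed K] [Nonempty n] (A : Matrix n n K) {k : ℕ} (hk : 0 < k)
    (x : K) : (A ^ k).charpoly.IsRoot x ↔ ∃ y, A.charpoly.IsRoot y ∧ y ^ k = x := by
  rw [← Matrix.mem_spectrum_iff_isRoot_charpoly, spectrum.map_pow_of_pos A hk]
  simp only [Set.mem_image, Matrix.mem_spectrum_iff_isRoot_charpoly]

theorem root_charpoly_pow_map {L : Type*} [Field L] [IsAlgClosed L] [Nonempty n]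
    (A : Matrix n n K) (j : K →+* L) {k : ℕ} (hk : 0 < k) (x : L) :
    ((A ^ k).charpoly.map j).IsRoot x ↔ ∃ y, (A.charpoly.map j).IsRoot y ∧ y ^ k = x := by
  rw [← Matrix.charpoly_map, ← Matrix.charpoly_map]
  have h1 : (A ^ k).map j = (A.map j) ^ k := map_pow (j.mapMatrix) A k
  rw [h1]
  exact root_charpoly_pow _ hk x

/-- powers of a matrix with split characteristic polynomial -/
theorem splits_pow [Nonempty n] (A : Matrix n n K) {k : ℕ} (hk : 0 < k)
    (h : A.charpoly.Splits) : (A ^ k).charpoly.Splits := by
  refine Splits.of_splits_map (algebraMap K (AlgebraicClosure K)) (IsAlgClosed.splits _) ?_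
  intro x hx
  rw [mem_roots (map_ne_zero (Matrix.charpoly_monic _).ne_zero)] at hx
  obtain ⟨y, hy, rfl⟩ := (root_charpoly_pow_map A _ hk x).1 hx
  exact pow_mem (h.mem_range_of_isRoot (Matrix.charpoly_monic _).ne_zero hy) k

/-- powers of a neat matrix have the same number of distinct eigenvalues -/
theorem nroots_pow [Nonempty n] (A : Matrix n n K) {k : ℕ} (hk : 0 < k)
    (h : ∀ x y : AlgebraicClosure K,
      (A.charpoly.map (algebraMap K (AlgebraicClosure K))).IsRoot x →
      (A.charpoly.map (algebraMap K (AlgebraicClosure K))).IsRoot y → x ^ k = y ^ k → x = y) :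
    nroots (A ^ k).charpoly = nroots A.charpoly := by
  classical
  unfold nroots
  have h0 : A.charpoly.map (algebraMap K (AlgebraicClosure K)) ≠ 0 :=
    map_ne_zero (Matrix.charpoly_monic _).ne_zero
  have h0' : (A ^ k).charpoly.map (algebraMap K (AlgebraicClosure K)) ≠ 0 :=
    map_ne_zero (Matrix.charpoly_monic _).ne_zero
  have h1 : ((A ^ k).charpoly.map (algebraMap K (AlgebraicClosure K))).roots.toFinset =
      ((A.charpoly.map (algebraMap K (AlgebraicClosure K))).roots.toFinset).image
        (fun x => x ^ k) := by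
    ext x
    rw [Multiset.mem_toFinset, mem_roots h0', root_charpoly_pow_map A _ hk, Finset.mem_image]
    simp only [Multiset.mem_toFinset, mem_roots h0]
  rw [h1, Finset.card_image_of_injOn]
  intro x hx y hy hxy
  rw [Finset.mem_coe, Multiset.mem_toFinset, mem_roots h0] at hx hy
  exact h x y hx hy hxy

end pow

end Pool.Agent.FF
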