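import Pool.Agent.helper21.FF.ELL
import Pool.Agent.helper21.FF.NEAT
import Pool.Agent.helper21.FF.Roots
import Pool.Agent.helper67.RG.FDefs

/-!
# FF (MP_2e0e07_nt): Frobenius fields, the local part

A regular split element `s₀` of `Γ` gives, unless `ad⁰ ρ` has its coefficients in the algebra of `V`
on an open subgroup, an open set on which `V` is split (if it has at most the same number of
eigenvalues as `V s₀`) and `ρ` is not.
-/

set_option autoImplicit false

namespace Pool.Agent.FF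

open Matrix Polynomial Topology Filter Pool.Agent.GO Pool.Agent.AR Pool.Agent.FLD Pool.Agent.RG

/-- the coefficients of `ad⁰ ρ` are in the algebra of the coefficients of `V` on an open subgroup -/
def AdC {Γ : Type} [Group Γ] [TopologicalSpace Γ] {m : Type} [Fintype m] [DecidableEq m] (p : ℕ)
    [Fact p.Prime] (V : Γ →* Matrix m m ℚ_[p]) (ρ : Γ →* Matrix (Fin 2) (Fin 2) ℚ_[p]) : Prop :=
  ∃ U : Subgroup Γ, IsOpen (U : Set Γ) ∧
    ∀ i j, (fun g : U => ad0 ((bc (algebraMap ℚ_[p] (PadicAlgCl p)) ρ).comp U.subtype) g i j) ∈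
      alg ((bc (algebraMap ℚ_[p] (PadicAlgCl p)) V).comp U.subtype)

theorem splits_pow' {K m : Type*} [Field K] [Fintype m] [DecidableEq m] (A : Matrix m m K) {k : ℕ}
    (hk : 0 < k) (h : A.charpoly.Splits) : (A ^ k).charpoly.Splits := by
  rcases isEmpty_or_nonempty m with hm | hm
  · rw [Matrix.charpoly_isEmpty]
    exact Splits.one
  · exact splits_pow A hk h

theorem nroots_pow' {K m : Type*} [Field K] [Fintype m] [DecidableEq m] (A : Matrix m m K) {k : ℕ}
    (hk : 0 < k) (h : ∀ x y : AlgebraicClosure K,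
      (A.charpoly.map (algebraMap K (AlgebraicClosure K))).IsRoot x →
      (A.charpoly.map (algebraMap K (AlgebraicClosure K))).IsRoot y → x ^ k = y ^ k → x = y) :
    nroots (A ^ k).charpoly = nroots A.charpoly := by
  rcases isEmpty_or_nonempty m with hm | hm
  · rw [Matrix.charpoly_isEmpty, Matrix.charpoly_isEmpty]
  · exact nroots_pow A hk h

/-- a split polynomial has a discriminant which is a square -/
theorem disc_of_splits {F : Type*} [Field F] (A : Matrix (Fin 2) (Fin 2) F)
    (h : A.charpoly.Splits) : ∃ z : F, disc A = z ^ 2 := by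
  have hdeg : A.charpoly.natDegree = 2 := by
    rw [Matrix.charpoly_natDegree_eq_dim, Fintype.card_fin]
  have hroots : Multiset.card A.charpoly.roots = 2 := by
    rw [← h.natDegree_eq_card_roots, hdeg]
  obtain ⟨a, b, hab⟩ := Multiset.card_eq_two.1 hroots
  have h1 : A.charpoly = (X - C a) * (X - C b) := by
    have h2 := h.eq_prod_roots_of_monic (Matrix.charpoly_monic A)
    rw [hab] at h2
    simpa using h2
  have h2 : A.charpoly = X ^ 2 - C A.trace * X + C A.det := Matrix.charpoly_fin_two A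
  rw [h2] at h1
  have e1 := congrArg (fun f : F[X] => f.coeff 1) h1
  have e0 := congrArg (fun f : F[X] => f.coeff 0) h1
  have h3 : (X - C a) * (X - C b) = X ^ 2 - C (a + b) * X + C (a * b) := by
    rw [C_add, C_mul]
    ring
  rw [h3] at e1 e0
  simp [coeff_X, coeff_C] at e1 e0
  refine ⟨a - b, ?_⟩
  unfold disc
  rw [e0, show A.trace = a + b by linear_combination -e1]
  ring

theorem oddV_of_mul {p : ℕ} [Fact p.Prime] {x c : ℚ_[p]} (h : OddV p (c ^ 2 * x)) : OddV p x := by
  intro z hz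
  apply h (c * z)
  rw [norm_mul, mul_pow, hz, norm_mul, norm_pow]

theorem disc_smul {F : Type*} [CommRing F] (c : F) (A : Matrix (Fin 2) (Fin 2) F) :
    disc (c • A) = c ^ 2 * disc A := by
  unfold disc
  rw [Matrix.trace_smul, Matrix.det_smul, Fintype.card_fin, smul_eq_mul]
  ring

/-- The topological part: a regular split element `s₀` all of whose powers are regular gives
`AdC`, unless there is an open set where `V` is split with at most the same number of eigenvalues
and `ρ` is not. -/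
theorem FF_local (p : ℕ) [Fact p.Prime] (Γ : Type) [Group Γ] [TopologicalSpace Γ]
    [IsTopologicalGroup Γ] [CompactSpace Γ] (m : Type) [Fintype m] [DecidableEq m]
    (V : Γ →* Matrix m m ℚ_[p]) (ρ : Γ →* Matrix (Fin 2) (Fin 2) ℚ_[p])
    (hV : Continuous V) (hρ : Continuous ρ)
    (hSI : SI (bc (algebraMap ℚ_[p] (PadicAlgCl p)) ρ))
    (s₀ : Γ) (hs : (V s₀).charpoly.Splits)
    (hneat : ∀ k : ℕ, 0 < k → ∀ x y : PadicAlgCl p,
      ((V s₀).charpoly.map (algebraMap _ (PadicAlgCl p))).IsRoot x →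
      ((V s₀).charpoly.map (algebraMap _ (PadicAlgCl p))).IsRoot y →
      x ^ k = y ^ k → x = y) :
    AdC p V ρ ∨ ∃ O : Set Γ, IsOpen O ∧ O.Nonempty ∧ ∀ s ∈ O, OddV p (disc (ρ s)) ∧
      (nroots (V s).charpoly ≤ nroots (V s₀).charpoly → (V s).charpoly.Splits) := by
  rcases ALL p Γ m ℚ_[p] (PadicAlgCl p) V ρ hV hρ hSI with h | ⟨U, hU, hB⟩
  · left
    exact h
  · right
    -- a power of `s₀` in `U`
    have hUf : U.FiniteIndex := by
      have := Subgroup.quotient_finite_of_isOpen U hU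
      exact Subgroup.finiteIndex_of_finite_quotient
    obtain ⟨k, hk, -, hkU⟩ := Subgroup.exists_pow_mem_of_index_ne_zero hUf.index_ne_zero s₀
    obtain ⟨g', hg'U, hg'⟩ := ELL p Γ (PadicAlgCl p) ρ hρ hSI U hU
    obtain ⟨h, hVh, c, hc⟩ := hB ((s₀ ^ k)⁻¹ * g') (U.mul_mem (U.inv_mem hkU) hg'U)
    set t : Γ := s₀ ^ k * h with ht
    have hVt : V t = V s₀ ^ k := by rw [ht, map_mul, hVh, mul_one, map_pow]
    have hρt : ρ g' = c • ρ t := by
      rw [ht, map_mul, ← mul_smul_comm, ← hc, ← map_mul, mul_inv_cancel_left]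
    have hodd : OddV p (disc (ρ t)) := by
      rw [hρt, disc_smul] at hg'
      exact oddV_of_mul hg'
    have hd0 : disc (ρ t) ≠ 0 := by
      intro h0
      apply hodd 0
      rw [h0]
      simp
    have hst : (V t).charpoly.Splits := by
      rw [hVt]
      exact splits_pow' _ hk hs
    have hnr : nroots (V t).charpoly = nroots (V s₀).charpoly := by
      rw [hVt]
      exact nroots_pow' _ hk (hneat k hk)
    obtain ⟨O₁, hO₁, ht₁, hO₁2⟩ := SPL p m Γ V hV t hst
    have hcd : Continuous fun s => disc (ρ s) := by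
      unfold disc
      exact ((Continuous.matrix_trace hρ).pow 2).sub
        (continuous_const.mul (Continuous.matrix_det hρ))
    refine ⟨O₁ ∩ {s | ‖disc (ρ s) - disc (ρ t)‖ < ‖disc (ρ t)‖},
      hO₁.inter (isOpen_lt (hcd.sub continuous_const).norm continuous_const), ⟨t, ht₁, ?_⟩, ?_⟩
    · show ‖disc (ρ t) - disc (ρ t)‖ < ‖disc (ρ t)‖
      rw [sub_self, norm_zero]
      exact norm_pos_iff.2 hd0
    · rintro s ⟨hs1, hs2⟩
      refine ⟨?_, fun hn => hO₁2 s hs1 (by rw [hnr]; exact hn)⟩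
      have e : ‖disc (ρ s)‖ = ‖disc (ρ t)‖ := by
        have h3 : ‖disc (ρ s) - disc (ρ t)‖ ≠ ‖disc (ρ t)‖ := hs2.ne
        have h4 := Padic.add_eq_max_of_ne h3
        rw [sub_add_cancel] at h4
        rw [h4]
        exact max_eq_right (le_of_lt hs2)
      intro z hz
      exact hodd z (by rw [hz, e])

/-- an open subgroup on which the values of `V` are `1` modulo `p²` -/
theorem small_subgroup (p : ℕ) [Fact p.Prime] (Γ : Type) [Group Γ] [TopologicalSpace Γ]
    [IsTopologicalGroup Γ] (m : Type) [Fintype m] [DecidableEq m] (V : Γ →* Matrix m m ℚ_[p])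
    (hV : Continuous V) :
    ∃ U : Subgroup Γ, IsOpen (U : Set Γ) ∧ ∀ g ∈ U, ∀ i j, ‖(V g - 1) i j‖ ≤ ((p : ℝ) ^ 2)⁻¹ := by
  obtain ⟨R, hR, hL, -⟩ := LA p m ℚ_[p]
  let r : Γ →* Matrix (Fin 2) (Fin 2) ℚ_[p] := 1
  obtain ⟨U, hU, hU2⟩ := OG p _ R hL Γ (V.prod r) (hV.prodMk continuous_const) 2
  refine ⟨U, hU, fun g hg i j => ?_⟩
  obtain ⟨e, he, hge⟩ := hU2 g hg
  have h1 : V g - 1 = ((p : ℚ_[p]) ^ 2) • e.1 := congrArg Prod.fst hge
  rw [h1, Matrix.smul_apply, norm_smul, norm_pow, Padic.norm_p, inv_pow]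
  calc ((p : ℝ) ^ 2)⁻¹ * ‖e.1 i j‖ ≤ ((p : ℝ) ^ 2)⁻¹ * 1 :=
        mul_le_mul_of_nonneg_left (((hR e).1 he).1 i j) (by positivity)
    _ = _ := mul_one _

/-- `AdC` for an open subgroup gives `AdC` -/
theorem adC_of_subgroup {Γ : Type} [Group Γ] [TopologicalSpace Γ] {m : Type} [Fintype m]
    [DecidableEq m] (p : ℕ) [Fact p.Prime] (V : Γ →* Matrix m m ℚ_[p])
    (ρ : Γ →* Matrix (Fin 2) (Fin 2) ℚ_[p]) (H : Subgroup Γ) (hH : IsOpen (H : Set Γ))
    (h : AdC p (V.comp H.subtype) (ρ.comp H.subtype)) : AdC p V ρ := by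
  obtain ⟨U, hU, hUa⟩ := h
  refine ⟨U.map H.subtype, ?_, ?_⟩
  · have := hH.isOpenMap_subtype_val _ hU
    rw [Subgroup.coe_map]
    exact this
  · intro i j
    let e : ↥(U.map H.subtype) → ↥U := fun g =>
      ⟨⟨g.1, by
        obtain ⟨u, hu, hg⟩ := g.2
        rw [← hg]
        exact u.2⟩, by
        obtain ⟨u, hu, hg⟩ := g.2
        have : u = ⟨g.1, by rw [← hg]; exact u.2⟩ := Subtype.ext hg
        rw [← this]
        exact hu⟩
    have he : ∀ g, ((e g).1.1 : Γ) = g.1 := fun g => rfl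
    have hem : ∀ g h, e (g * h) = e g * e h := fun g h => Subtype.ext (Subtype.ext rfl)
    have hinv : ∀ g, e g⁻¹ = (e g)⁻¹ := fun g => Subtype.ext (Subtype.ext rfl)
    -- pull back along `e`
    let φ : (↥U → PadicAlgCl p) →ₐ[PadicAlgCl p]
        (↥(U.map H.subtype) → PadicAlgCl p) :=
      { toFun := fun f g => f (e g)
        map_one' := rfl
        map_mul' := fun _ _ => rfl
        map_zero' := rfl
        map_add' := fun _ _ => rfl
        commutes' := fun _ => rfl }
    have h1 : alg ((bc (algebraMap ℚ_[p] (PadicAlgCl p)) (V.comp H.subtype)).comp U.subtype) ≤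
        (alg ((bc (algebraMap ℚ_[p] (PadicAlgCl p)) V).comp
            (U.map H.subtype).subtype)).comap φ := by
      refine alg_le _ ?_ ?_
      · intro a b
        exact coef_mem ((bc (algebraMap ℚ_[p] (PadicAlgCl p)) V).comp
              (U.map H.subtype).subtype) a b
      · intro a b
        exact coefInv_mem ((bc (algebraMap ℚ_[p] (PadicAlgCl p)) V).comp
              (U.map H.subtype).subtype) a b
    exact h1 (hUa i j)

end Pool.Agent.FF
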