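import Mathlib

/-!
# FF (MP_2e0e07_nt): polynomials over `ℚ_p` near a split polynomial

A monic polynomial over `ℚ_p` which is near a split polynomial with `d` distinct roots, and has at
most `d` distinct roots, is split.
-/

set_option autoImplicit false

namespace Pool.Agent.FF

open Polynomial Topology

/-- the number of distinct roots in the algebraic closure -/
noncomputable def nroots {F : Type*} [Field F] (f : F[X]) : ℕ := by
  classical
  exact (f.map (algebraMap F (AlgebraicClosure F))).roots.toFinset.card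

theorem spl_core (p : ℕ) [Fact p.Prime] (lam : Finset ℚ_[p]) (δ : ℝ) (hδ : 0 < δ)
    (hsep : ∀ a ∈ lam, ∀ b ∈ lam, a ≠ b → δ ≤ ‖a - b‖) (q : ℚ_[p][X]) (hq : q.Monic)
    (hev : ∀ a ∈ lam, ‖q.eval a‖ < δ ^ q.natDegree) (hn : nroots q ≤ lam.card) : q.Splits := by
  classical
  let L := PadicAlgCl p
  have hs : (q.map (algebraMap ℚ_[p] L)).Splits := IsAlgClosed.splits _
  have hmon : (q.map (algebraMap ℚ_[p] L)).Monic := hq.map _
  -- a root near each element of `lam`
  have h1 : ∀ a ∈ lam, ∃ θ : L, θ ∈ (q.map (algebraMap ℚ_[p] L)).roots ∧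
      ‖algebraMap ℚ_[p] L a - θ‖ < δ := by
    intro a ha
    by_contra hcon
    push Not at hcon
    have h2 : algebraMap ℚ_[p] L (q.eval a) =
        ((q.map (algebraMap ℚ_[p] L)).roots.map fun θ => algebraMap ℚ_[p] L a - θ).prod := by
      rw [← Polynomial.eval_map_apply, hs.eval_eq_prod_roots, hmon.leadingCoeff, one_mul]
    have h3 : ∀ m : Multiset L, (∀ θ ∈ m, δ ≤ ‖algebraMap ℚ_[p] L a - θ‖) →
        δ ^ (Multiset.card m) ≤ ‖(m.map fun θ => algebraMap ℚ_[p] L a - θ).prod‖ := by
      intro m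
      induction m using Multiset.induction_on with
      | empty => simp
      | cons x m ih =>
        intro hm
        rw [Multiset.map_cons, Multiset.prod_cons, norm_mul, Multiset.card_cons, pow_succ, mul_comm]
        exact mul_le_mul (hm x (Multiset.mem_cons_self x m))
          (ih fun θ hθ => hm θ (Multiset.mem_cons_of_mem hθ)) (by positivity) (norm_nonneg _)
    have h4 := h3 _ (fun θ hθ => hcon θ hθ)
    rw [← h2, ← hs.natDegree_eq_card_roots, natDegree_map, norm_algebraMap'] at h4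
    exact absurd (hev a ha) (not_lt.2 h4)
  choose! θ hθ1 hθ2 using h1
  have hul : ∀ (a b : ℚ_[p]) (x : L), ‖algebraMap ℚ_[p] L a - x‖ < δ →
      ‖algebraMap ℚ_[p] L b - x‖ < δ → ‖a - b‖ < δ := by
    intro a b x ha hb
    have h2 : algebraMap ℚ_[p] L (a - b) =
        (algebraMap ℚ_[p] L a - x) + -(algebraMap ℚ_[p] L b - x) := by
      rw [map_sub]
      ring
    rw [← norm_algebraMap' L (a - b), h2]
    refine lt_of_le_of_lt (IsUltrametricDist.norm_add_le_max _ _) (max_lt ha ?_)
    rwa [norm_neg]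
  have hinj : Set.InjOn θ (lam : Set ℚ_[p]) := by
    intro a ha b hb hab
    by_contra hne
    have h2 := hul a b (θ a) (hθ2 a ha) (by rw [hab]; exact hθ2 b hb)
    exact absurd h2 (not_lt.2 (hsep a ha b hb hne))
  have himg : lam.image θ = (q.map (algebraMap ℚ_[p] L)).roots.toFinset := by
    apply Finset.eq_of_subset_of_card_le
    · intro x hx
      rw [Finset.mem_image] at hx
      obtain ⟨a, ha, rfl⟩ := hx
      rw [Multiset.mem_toFinset]
      exact hθ1 a ha
    · rw [Finset.card_image_of_injOn hinj]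
      exact hn
  refine Splits.of_splits_map (algebraMap ℚ_[p] L) hs ?_
  intro x hx
  have hx' : x ∈ lam.image θ := by
    rw [himg, Multiset.mem_toFinset]
    exact hx
  rw [Finset.mem_image] at hx'
  obtain ⟨a, ha, rfl⟩ := hx'
  have hfix : ∀ σ : Gal(L/ℚ_[p]), σ (θ a) = θ a := by
    intro σ
    have h2 : σ (θ a) ∈ (q.map (algebraMap ℚ_[p] L)).roots := by
      rw [mem_roots hmon.ne_zero, IsRoot.def, eval_map_algebraMap]
      have h3 := hθ1 a ha
      rw [mem_roots hmon.ne_zero, IsRoot.def, eval_map_algebraMap] at h3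
      have h4 := aeval_algHom_apply (σ : L →ₐ[ℚ_[p]] L) (θ a) q
      rw [h3, map_zero] at h4
      exact h4
    have h3 : σ (θ a) ∈ lam.image θ := by
      rw [himg, Multiset.mem_toFinset]
      exact h2
    rw [Finset.mem_image] at h3
    obtain ⟨b, hb, hb2⟩ := h3
    have h4 : ‖algebraMap ℚ_[p] L a - σ (θ a)‖ < δ := by
      have h5 : algebraMap ℚ_[p] L a - σ (θ a) = σ (algebraMap ℚ_[p] L a - θ a) := by
        rw [map_sub, AlgEquiv.commutes]
      have h6 : ‖σ (algebraMap ℚ_[p] L a - θ a)‖ = ‖algebraMap ℚ_[p] L a - θ a‖ :=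
        (spectralNorm_eq_of_equiv σ (algebraMap ℚ_[p] L a - θ a)).symm
      rw [h5, h6]
      exact hθ2 a ha
    have h5 := hul a b (σ (θ a)) h4 (by rw [← hb2]; exact hθ2 b hb)
    have h6 : a = b := by
      by_contra hne
      exact absurd h5 (not_lt.2 (hsep a ha b hb hne))
    rw [← hb2, ← h6]
  have h7 : θ a ∈ (⊥ : IntermediateField ℚ_[p] L) := (InfiniteGalois.mem_bot_iff_fixed (θ a)).2 hfix
  rw [IntermediateField.mem_bot] at h7
  obtain ⟨y, hy⟩ := h7
  exact ⟨y, hy⟩

/-- Row SPL. Splitting in a neighbourhood. -/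
theorem SPL (p : ℕ) [Fact p.Prime] (n : Type) [Fintype n] [DecidableEq n] (Γ : Type)
    [TopologicalSpace Γ] (V : Γ → Matrix n n ℚ_[p]) (hV : Continuous V) (t : Γ)
    (ht : (V t).charpoly.Splits) :
    ∃ O : Set Γ, IsOpen O ∧ t ∈ O ∧ ∀ s ∈ O, nroots (V s).charpoly ≤ nroots (V t).charpoly →
      (V s).charpoly.Splits := by
  classical
  set lam : Finset ℚ_[p] := (V t).charpoly.roots.toFinset with hlam
  have hcard : nroots (V t).charpoly = lam.card := by
    unfold nroots
    rw [ht.roots_map, hlam, Multiset.toFinset_map, Finset.card_image_of_injective]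
    exact (algebraMap ℚ_[p] (AlgebraicClosure ℚ_[p])).injective
  obtain ⟨δ, hδ, hsep⟩ : ∃ δ : ℝ, 0 < δ ∧ ∀ a ∈ lam, ∀ b ∈ lam, a ≠ b → δ ≤ ‖a - b‖ := by
    by_cases hne : (lam.offDiag).Nonempty
    · refine ⟨lam.offDiag.inf' hne fun z => ‖z.1 - z.2‖, ?_, ?_⟩
      · rw [Finset.lt_inf'_iff]
        intro z hz
        rw [Finset.mem_offDiag] at hz
        exact norm_pos_iff.2 (sub_ne_zero.2 hz.2.2)
      · intro a ha b hb hab
        exact Finset.inf'_le (fun z : ℚ_[p] × ℚ_[p] => ‖z.1 - z.2‖)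
          (b := (a, b)) (Finset.mem_offDiag.2 ⟨ha, hb, hab⟩)
    · refine ⟨1, one_pos, ?_⟩
      intro a ha b hb hab
      exact absurd ⟨(a, b), Finset.mem_offDiag.2 ⟨ha, hb, hab⟩⟩ hne
  have hc : ∀ a : ℚ_[p], Continuous fun s => ‖(V s).charpoly.eval a‖ := by
    intro a
    have h1 : (fun s => ‖(V s).charpoly.eval a‖) =
        fun s => ‖(Matrix.scalar n a - V s).det‖ := by
      funext s
      rw [Matrix.eval_charpoly]
    rw [h1]
    exact (Continuous.matrix_det (continuous_const.sub hV)).norm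
  refine ⟨⋂ a ∈ lam, {s | ‖(V s).charpoly.eval a‖ < δ ^ Fintype.card n}, ?_, ?_, ?_⟩
  · exact isOpen_biInter_finset fun a _ => isOpen_lt (hc a) continuous_const
  · rw [Set.mem_iInter₂]
    intro a ha
    rw [hlam, Multiset.mem_toFinset, mem_roots (Matrix.charpoly_monic _).ne_zero] at ha
    show ‖(V t).charpoly.eval a‖ < δ ^ Fintype.card n
    rw [ha, norm_zero]
    positivity
  · intro s hs hn
    rw [Set.mem_iInter₂] at hs
    refine spl_core p lam δ hδ hsep _ (Matrix.charpoly_monic _) ?_ (by rw [← hcard]; exact hn)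
    intro a ha
    rw [Matrix.charpoly_natDegree_eq_dim]
    exact hs a ha

end Pool.Agent.FF
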